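import Pool.Agent.Q248.DF.Asm
import Pool.Agent.Q248.DF.TaskInj
import Pool.Agent.Q248.DF.TaskPrime
import Pool.Agent.Q248.DF.TaskCop
import Pool.Agent.Q248.DF.TaskRes
import Pool.Agent.Q248.DF.TaskFib
import Pool.Agent.Q248.DF.TaskMem
import Pool.Agent.Q248.DF.TaskCard
import Pool.Agent.Q248.DF.TaskUnit
import Pool.Agent.Q248.DF.TaskDiff
import Pool.Agent.Q248.DF.TaskAvg
import Pool.Agent.Q248.DF.TaskGcd
import Pool.Agent.Q248.DF.TaskGcd1
import Pool.Agent.Q248.DF.TaskUnion
import Pool.Agent.Q248.DF.TaskCore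

namespace Pool.Agent.Results.MP_3e256f_co.AtMostTwoPrimes

open Finset Pool.Agent.Q248.DF

/-- `A` is a direct factor of `ℤ/ω`: for some `C` every `g` is `a + c` with `a ∈ A`, `c ∈ C` in
exactly one way -/
def IsDirectFactor (ω : ℕ) (A : Finset (ZMod ω)) : Prop :=
  ∃ C : Finset (ZMod ω), ∀ g : ZMod ω, ∃! x : ZMod ω × ZMod ω, x.1 ∈ A ∧ x.2 ∈ C ∧ x.1 + x.2 = g

/-- `S` is a complete set of residues modulo `n` (`n` a divisor of `ω`) -/
def IsCompleteResidues (ω n : ℕ) (S : Finset (ZMod ω)) : Prop :=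
  S.card = n ∧ ∀ x ∈ S, ∀ y ∈ S, x.val ≡ y.val [MOD n] → x = y

/-- **Theorem.** Let `n` have at most two prime factors and let `A` be a direct factor of `ℤ/ω` with
`n` elements, which shares at least `(n + 1) / 2` elements with a complete set of residues modulo
`n`. Then `A` is a complete set of residues modulo `n`. -/
theorem result (ω n : ℕ) (hω : 0 < ω) (hn : n.primeFactors.card ≤ 2) (A : Finset (ZMod ω))
    (hA : IsDirectFactor ω A) (hc : A.card = n) (B : Finset (ZMod ω))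
    (hB : IsCompleteResidues ω n B) (hAB : n + 1 ≤ 2 * (A ∩ B).card) :
    IsCompleteResidues ω n A := by
  have : NeZero ω := ⟨hω.ne'⟩
  classical
  obtain ⟨C, hC⟩ := hA
  obtain ⟨x₀, hx₀, _⟩ := hC 0
  have hApos : 0 < A.card := Finset.card_pos.2 ⟨x₀.1, hx₀.1⟩
  obtain ⟨p, q, a, b, hp, hq, hpq, hs⟩ := shape n (by omega) hn
  -- translate C
  have hcard : A.card * C.card = ω := by
    rw [← Finset.card_product]
    have : (A ×ˢ C).card = (Finset.univ : Finset (ZMod ω)).card := by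
      apply Finset.card_bij (fun x _ => x.1 + x.2)
      · intro x _; exact Finset.mem_univ _
      · intro x hx y hy h
        rw [Finset.mem_product] at hx hy
        exact (hC (y.1 + y.2)).unique ⟨hx.1, hx.2, h⟩ ⟨hy.1, hy.2, rfl⟩
      · intro g _
        obtain ⟨x, hx, _⟩ := hC g
        exact ⟨x, Finset.mem_product.2 ⟨hx.1, hx.2.1⟩, hx.2.2⟩
    rw [this, Finset.card_univ, ZMod.card]
  have hT : Til ⊤ A (C.image (fun c => c - x₀.2)) := by
    refine ⟨fun _ _ => AddSubgroup.mem_top _, fun _ _ => AddSubgroup.mem_top _, ?_, ?_⟩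
    · intro g _
      obtain ⟨x, hx, _⟩ := hC (g + x₀.2)
      refine ⟨x.1, hx.1, x.2 - x₀.2, Finset.mem_image_of_mem _ hx.2.1, ?_⟩
      rw [← add_sub_assoc, hx.2.2, add_sub_cancel_right]
    · rw [Finset.card_image_of_injective _ (sub_left_injective), hcard, AddSubgroup.card_top,
        Nat.card_zmod]
  have h0 : (0 : ZMod ω) ∈ C.image (fun c => c - x₀.2) :=
    Finset.mem_image.2 ⟨x₀.2, hx₀.2.1, sub_self _⟩
  refine ⟨hc, ?_⟩
  rw [hs]
  refine assembly TInj.main TPrime.main TCop.main TRes.main TFib.main TaskMem.main TCard.main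
    TUnit.main TDiff.main taskAvg TGcd.main TaskGcd1.main TUnion.main TCore.main ω p q a b A _
    (A ∩ B) hp hq hpq hω (by rw [hc, hs]) h0 hT Finset.inter_subset_left ?_ (by rw [← hs]; omega)
  intro t ht t' ht' h
  rw [← hs] at h
  exact hB.2 t (Finset.mem_inter.1 ht).2 t' (Finset.mem_inter.1 ht').2 h

end Pool.Agent.Results.MP_3e256f_co.AtMostTwoPrimes
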